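import Pool.Agent.KS6_32.MO.Top

/-! Comparison of two exponential polynomials. -/

set_option autoImplicit false

namespace Pool.Agent.KS6_32.MO

open Finset Filter Topology

theorem compare {x y : ℕ → ℝ} (hx : EP fun n => (x n : ℂ)) (hy : EP fun n => (y n : ℂ)) {K : ℝ} (hK : 1 ≤ K)
    (hx1 : ∀ n, 1 ≤ x n) (hxK : ∀ n, x (n + 1) ≤ K * x n) (hy0 : ∀ n, 0 ≤ y n)
    (hlim : Tendsto (fun n => y n / x n) atTop (𝓝 0)) : ∃ C : ℝ, 0 < C ∧ ∀ᶠ n : ℕ in atTop, y n * n ≤ C * x n := by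
  have hxm : ∀ n m, x (n + m) ≤ K ^ m * x n := by
    intro n m
    induction m with
    | zero => simp
    | succ m ih =>
      rw [← add_assoc]
      refine (hxK _).trans ?_
      rw [pow_succ']
      rw [mul_assoc]
      exact mul_le_mul_of_nonneg_left ih (by linarith)
  have hxr : ∀ n m r, m ≤ r → x (n + m) ≤ K ^ r * x n := fun n m r hmr => (hxm n m).trans
    (mul_le_mul_of_nonneg_right (pow_le_pow_right₀ hK hmr) (by linarith [hx1 n]))
  rcases hx.top with h | ⟨ρ, hρ, e, C, hC, c, hc, r, h⟩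
  · exfalso
    obtain ⟨n, hn⟩ := h.exists
    have h1 := hx1 n
    have h2 : x n = 0 := by exact_mod_cast hn
    linarith
  rcases hy.top with h' | ⟨ρ', hρ', e', C', hC', c', hc', r', h'⟩
  · refine ⟨1, one_pos, ?_⟩
    filter_upwards [h'] with n hn
    have h2 : y n = 0 := by exact_mod_cast hn
    rw [h2, zero_mul, one_mul]
    linarith [hx1 n]
  have hlow : ∀ᶠ n : ℕ in atTop, c * ((n : ℝ) ^ e * ρ ^ n) ≤ K ^ r * x n := by
    filter_upwards [h] with n hn
    obtain ⟨-, m, hm, hn2⟩ := hn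
    refine hn2.trans ?_
    rw [Complex.norm_real, Real.norm_of_nonneg (by linarith [hx1 (n + m)])]
    exact hxr n m r hm
  have hKr : 0 < K ^ r' := by positivity
  have hsmall : ∀ᶠ n : ℕ in atTop, (n : ℝ) ^ e' * ρ' ^ n ≤ 1 / 2 * ((n : ℝ) ^ e * ρ ^ n) := by
    have hη : 0 < c' / (2 * K ^ r' * C) := by positivity
    have h1 : ∀ᶠ n in atTop, y n ≤ c' / (2 * K ^ r' * C) * x n := by
      filter_upwards [hlim.eventually (eventually_le_nhds hη)] with n hn
      rwa [div_le_iff₀ (by linarith [hx1 n])] at hn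
    obtain ⟨n₀, hn₀⟩ := eventually_atTop.1 h1
    filter_upwards [h, h', eventually_ge_atTop n₀] with n hn hn' hge
    obtain ⟨m, hm, hn2⟩ := hn'.2
    rw [Complex.norm_real, Real.norm_of_nonneg (hy0 _)] at hn2
    have h3 := hn₀ (n + m) (by omega)
    have h4 := hxr n m r' hm
    have h5 := hn.1
    rw [Complex.norm_real, Real.norm_of_nonneg (by linarith [hx1 n])] at h5
    have h6 : c' * ((n : ℝ) ^ e' * ρ' ^ n) ≤ c' * (1 / 2 * ((n : ℝ) ^ e * ρ ^ n)) := by
      calc c' * ((n : ℝ) ^ e' * ρ' ^ n) ≤ y (n + m) := hn2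
        _ ≤ c' / (2 * K ^ r' * C) * x (n + m) := h3
        _ ≤ c' / (2 * K ^ r' * C) * (K ^ r' * (C * ((n : ℝ) ^ e * ρ ^ n))) := by
            apply mul_le_mul_of_nonneg_left _ hη.le
            exact h4.trans (mul_le_mul_of_nonneg_left h5 hKr.le)
        _ = c' * (1 / 2 * ((n : ℝ) ^ e * ρ ^ n)) := by field_simp
    exact le_of_mul_le_mul_left h6 hc'
  have hkey : ∀ᶠ n : ℕ in atTop, (n : ℝ) * ((n : ℝ) ^ e' * ρ' ^ n) ≤ (n : ℝ) ^ e * ρ ^ n := by
    rcases lt_trichotomy ρ ρ' with h1 | h1 | h1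
    · exfalso
      have h2 : |ρ / ρ'| < 1 := by
        rw [abs_of_pos (by positivity), div_lt_one hρ']
        exact h1
      have h3 := (tendsto_pow_const_mul_const_pow_of_abs_lt_one e h2).eventually (eventually_le_nhds (zero_lt_one (α := ℝ)))
      obtain ⟨n, hn1, hn2, hn3⟩ := (h3.and (hsmall.and (eventually_ge_atTop 1))).exists
      have hn0 : (1 : ℝ) ≤ n := by exact_mod_cast hn3
      rw [div_pow, ← mul_div_assoc, div_le_one (by positivity)] at hn1
      have h4 : (1 : ℝ) ≤ (n : ℝ) ^ e' := one_le_pow₀ hn0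
      have h5 : 0 < ρ' ^ n := by positivity
      nlinarith
    · subst h1
      have hee : e' < e := by
        by_contra hcon
        push Not at hcon
        obtain ⟨n, hn2, hn3⟩ := (hsmall.and (eventually_ge_atTop 1)).exists
        have hn0 : (1 : ℝ) ≤ n := by exact_mod_cast hn3
        have h4 : (n : ℝ) ^ e ≤ (n : ℝ) ^ e' := pow_le_pow_right₀ hn0 hcon
        have h5 : 0 < ρ ^ n := by positivity
        have h6 : 0 < (n : ℝ) ^ e := by positivity
        nlinarith [mul_pos h6 h5, mul_le_mul_of_nonneg_right h4 h5.le]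
      filter_upwards [eventually_ge_atTop 1] with n hn3
      have hn0 : (1 : ℝ) ≤ n := by exact_mod_cast hn3
      rw [← mul_assoc, ← pow_succ']
      exact mul_le_mul_of_nonneg_right (pow_le_pow_right₀ hn0 hee) (by positivity)
    · have h2 : |ρ' / ρ| < 1 := by
        rw [abs_of_pos (by positivity), div_lt_one hρ]
        exact h1
      have h3 := (tendsto_pow_const_mul_const_pow_of_abs_lt_one (e' + 1) h2).eventually (eventually_le_nhds (zero_lt_one (α := ℝ)))
      filter_upwards [h3, eventually_ge_atTop 1] with n hn1 hn3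
      have hn0 : (1 : ℝ) ≤ n := by exact_mod_cast hn3
      rw [div_pow, ← mul_div_assoc, div_le_one (by positivity)] at hn1
      have h4 : (1 : ℝ) ≤ (n : ℝ) ^ e := one_le_pow₀ hn0
      have h5 : 0 < ρ ^ n := by positivity
      rw [← mul_assoc, ← pow_succ']
      nlinarith
  refine ⟨C' * K ^ r / c, by positivity, ?_⟩
  filter_upwards [hkey, hlow, h'] with n h1 h2 h3
  have h4 := h3.1
  rw [Complex.norm_real, Real.norm_of_nonneg (hy0 _)] at h4
  have hn0 : (0 : ℝ) ≤ n := Nat.cast_nonneg n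
  calc y n * n ≤ C' * ((n : ℝ) ^ e' * ρ' ^ n) * n := mul_le_mul_of_nonneg_right h4 hn0
    _ = C' * ((n : ℝ) * ((n : ℝ) ^ e' * ρ' ^ n)) := by ring
    _ ≤ C' * ((n : ℝ) ^ e * ρ ^ n) := mul_le_mul_of_nonneg_left h1 hC'.le
    _ = C' / c * (c * ((n : ℝ) ^ e * ρ ^ n)) := by field_simp
    _ ≤ C' / c * (K ^ r * x n) := mul_le_mul_of_nonneg_left h2 (by positivity)
    _ = C' * K ^ r / c * x n := by ring

end Pool.Agent.KS6_32.MO
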