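import Mathlib

/-! Exponential polynomials: growth of sequences `φ (T ^ n w)`. -/

set_option autoImplicit false

namespace Pool.Agent.KS6_32.MO

open Finset Filter Topology Polynomial

/-- exponential polynomials, up to finitely many terms -/
def EP (s : ℕ → ℂ) : Prop :=
  ∃ P : ℂ →₀ ℂ[X], P 0 = 0 ∧ ∀ᶠ n : ℕ in atTop, s n = P.sum fun μ p => p.eval (n : ℂ) * μ ^ n

theorem EP.zero : EP fun _ => 0 := ⟨0, rfl, Eventually.of_forall fun n => by simp⟩

theorem EP.add {s t : ℕ → ℂ} (hs : EP s) (ht : EP t) : EP fun n => s n + t n := by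
  obtain ⟨P, hP0, hP⟩ := hs
  obtain ⟨Q, hQ0, hQ⟩ := ht
  refine ⟨P + Q, by simp [hP0, hQ0], ?_⟩
  filter_upwards [hP, hQ] with n h1 h2
  rw [h1, h2, Finsupp.sum_add_index']
  · intro a; simp
  · intro a p q; simp [add_mul]

theorem EP.of_eventually {s t : ℕ → ℂ} (hs : EP s) (h : ∀ᶠ n in atTop, t n = s n) : EP t := by
  obtain ⟨P, hP0, hP⟩ := hs
  refine ⟨P, hP0, ?_⟩
  filter_upwards [hP, h] with n h1 h2
  rw [h2, h1]

theorem EP.single {μ : ℂ} (hμ : μ ≠ 0) (p : ℂ[X]) : EP fun n : ℕ => p.eval (n : ℂ) * μ ^ n := by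
  classical
  refine ⟨Finsupp.single μ p, ?_, Eventually.of_forall fun n => ?_⟩
  · rw [Finsupp.single_apply, if_neg hμ]
  · rw [Finsupp.sum_single_index]
    simp

/-- the binomial coefficient as a polynomial -/
theorem choose_poly (j : ℕ) : ∃ p : ℂ[X], ∀ n : ℕ, p.eval (n : ℂ) = (n.choose j : ℂ) := by
  refine ⟨C ((j.factorial : ℂ)⁻¹) * descPochhammer ℂ j, fun n => ?_⟩
  rw [eval_mul, eval_C, descPochhammer_eval_eq_descFactorial, Nat.descFactorial_eq_factorial_mul_choose]
  push_cast
  rw [← mul_assoc, inv_mul_cancel₀ (by exact_mod_cast j.factorial_ne_zero), one_mul]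

variable {V : Type*} [AddCommGroup V] [Module ℂ V]

theorem EP.of_gen (T : Module.End ℂ V) (φ : V →ₗ[ℂ] ℂ) {μ : ℂ} {w : V} {k : ℕ}
    (hw : ((T - algebraMap ℂ (Module.End ℂ V) μ) ^ k) w = 0) : EP fun n : ℕ => φ ((T ^ n) w) := by
  set N : Module.End ℂ V := T - algebraMap ℂ (Module.End ℂ V) μ with hN
  have hkill : ∀ m, k ≤ m → (N ^ m) w = 0 := by
    intro m hm
    obtain ⟨r, rfl⟩ := Nat.exists_eq_add_of_le hm
    rw [add_comm, pow_add, Module.End.mul_apply, hw, map_zero]
  by_cases hμ : μ = 0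
  · subst hμ
    refine EP.zero.of_eventually ?_
    filter_upwards [eventually_ge_atTop k] with n hn
    have : T = N := by rw [hN]; simp
    rw [this, hkill n hn, map_zero]
  · have hT : T = N + algebraMap ℂ (Module.End ℂ V) μ := by rw [hN]; simp
    have hc : Commute N (algebraMap ℂ (Module.End ℂ V) μ) := (Algebra.commutes μ N).symm
    have hpow : ∀ n : ℕ, k ≤ n → φ ((T ^ n) w) = ∑ j ∈ range k, (n.choose j : ℂ) * (μ ^ n * (μ⁻¹ ^ j * φ ((N ^ j) w))) := by
      intro n hn
      rw [hT, hc.add_pow]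
      have h1 : (∑ m ∈ range (n + 1), N ^ m * (algebraMap ℂ (Module.End ℂ V) μ) ^ (n - m) * (n.choose m : Module.End ℂ V)) w
          = ∑ m ∈ range (n + 1), (n.choose m : ℂ) • (μ ^ (n - m)) • ((N ^ m) w) := by
        rw [LinearMap.sum_apply]
        apply sum_congr rfl
        intro m _
        rw [← map_pow, Module.End.mul_apply, Module.End.mul_apply]
        have e1 : ((n.choose m : ℕ) : Module.End ℂ V) w = (n.choose m : ℂ) • w := by
          rw [Module.End.natCast_apply]
          simp [Nat.cast_smul_eq_nsmul]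
        rw [e1, map_smul, Module.algebraMap_end_apply, map_smul, map_smul]
      rw [h1, map_sum]
      have hsub : range k ⊆ range (n + 1) := range_subset_range.2 (by omega)
      rw [← sum_subset hsub]
      · apply sum_congr rfl
        intro m hm
        rw [mem_range] at hm
        rw [map_smul, map_smul, smul_eq_mul, smul_eq_mul, ← mul_assoc (μ ^ n)]
        congr 2
        rw [inv_pow, ← div_eq_mul_inv, eq_div_iff (pow_ne_zero _ hμ), ← pow_add]
        congr 1
        omega
      · intro m _ hm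
        rw [mem_range, not_lt] at hm
        rw [hkill m hm, smul_zero, smul_zero, map_zero]
    choose p hp using choose_poly
    refine (EP.single hμ (∑ j ∈ range k, C (μ⁻¹ ^ j * φ ((N ^ j) w)) * p j)).of_eventually ?_
    filter_upwards [eventually_ge_atTop k] with n hn
    rw [hpow n hn, eval_finsetSum, sum_mul]
    apply sum_congr rfl
    intro j _
    rw [eval_mul, eval_C, hp]
    ring

theorem EP.of_end [FiniteDimensional ℂ V] (T : Module.End ℂ V) (φ : V →ₗ[ℂ] ℂ) (w : V) :
    EP fun n : ℕ => φ ((T ^ n) w) := by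
  have hw : w ∈ ⨆ μ, T.maxGenEigenspace μ := by
    rw [Module.End.iSup_maxGenEigenspace_eq_top]
    exact Submodule.mem_top
  induction hw using Submodule.iSup_induction' with
  | mem μ x hx =>
    rw [Module.End.mem_maxGenEigenspace] at hx
    obtain ⟨k, hk⟩ := hx
    apply EP.of_gen T φ (μ := μ) (k := k)
    rwa [Algebra.algebraMap_eq_smul_one]
  | zero => simpa using EP.zero
  | add x y _ _ hx hy => simpa using hx.add hy

/-! ### Limits -/

theorem pow_small {i e : ℕ} (h : i < e) : Tendsto (fun n : ℕ => (n : ℂ) ^ i / (n : ℂ) ^ e) atTop (𝓝 0) := by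
  rw [tendsto_zero_iff_norm_tendsto_zero]
  have h1 : Tendsto (fun n : ℕ => ((n : ℝ) ^ (e - i))⁻¹) atTop (𝓝 0) :=
    tendsto_inv_atTop_zero.comp ((tendsto_pow_atTop (by omega)).comp tendsto_natCast_atTop_atTop)
  refine h1.congr' ?_
  filter_upwards [eventually_gt_atTop 0] with n hn
  have hn0 : (0 : ℝ) < n := by exact_mod_cast hn
  rw [norm_div, norm_pow, norm_pow, Complex.norm_natCast, eq_div_iff (by positivity),
    show (n : ℝ) ^ e = n ^ (e - i) * n ^ i by rw [← pow_add]; congr 1; omega]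
  field_simp

/-- the leading coefficient -/
theorem poly_lead {p : ℂ[X]} {e : ℕ} (hp : p.natDegree ≤ e) :
    Tendsto (fun n : ℕ => p.eval (n : ℂ) / (n : ℂ) ^ e) atTop (𝓝 (p.coeff e)) := by
  have h1 : Tendsto (fun n : ℕ => ∑ i ∈ range (e + 1), p.coeff i * ((n : ℂ) ^ i / (n : ℂ) ^ e)) atTop
      (𝓝 (∑ i ∈ range (e + 1), if i = e then p.coeff e else 0)) := by
    apply tendsto_finsetSum
    intro i hi
    rw [mem_range] at hi
    by_cases h : i = e
    · subst h
      rw [if_pos rfl]
      refine tendsto_const_nhds.congr' ?_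
      filter_upwards [eventually_gt_atTop 0] with n hn
      have hn0 : (n : ℂ) ≠ 0 := by exact_mod_cast hn.ne'
      rw [div_self (pow_ne_zero _ hn0), mul_one]
    · rw [if_neg h]
      have := (pow_small (show i < e by omega)).const_mul (p.coeff i)
      rwa [mul_zero] at this
  rw [sum_ite_eq' (range (e + 1)) e, if_pos (mem_range.2 (Nat.lt_succ_self e))] at h1
  refine h1.congr fun n => ?_
  rw [eval_eq_sum_range' (Nat.lt_succ_of_le hp), sum_div]
  apply sum_congr rfl
  intro i _
  ring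

/-- polynomials against exponentials -/
theorem poly_exp (p : ℂ[X]) {z : ℂ} (hz : ‖z‖ < 1) : Tendsto (fun n : ℕ => p.eval (n : ℂ) * z ^ n) atTop (𝓝 0) := by
  have h1 : Tendsto (fun n : ℕ => ∑ i ∈ range (p.natDegree + 1), p.coeff i * ((n : ℂ) ^ i * z ^ n)) atTop
      (𝓝 (∑ i ∈ range (p.natDegree + 1), 0)) := by
    apply tendsto_finsetSum
    intro i _
    have h2 : Tendsto (fun n : ℕ => (n : ℂ) ^ i * z ^ n) atTop (𝓝 0) := by
      rw [tendsto_zero_iff_norm_tendsto_zero]
      refine (tendsto_pow_const_mul_const_pow_of_abs_lt_one i (r := ‖z‖) (by rwa [abs_norm])).congr fun n => ?_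
      rw [norm_mul, norm_pow, norm_pow, Complex.norm_natCast]
    have := h2.const_mul (p.coeff i)
    rwa [mul_zero] at this
  rw [sum_const_zero] at h1
  refine h1.congr fun n => ?_
  rw [eval_eq_sum_range, sum_mul]
  apply sum_congr rfl
  intro i _
  ring

end Pool.Agent.KS6_32.MO
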