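import Pool.Agent.KS6_32.MO.Word
import Pool.Agent.KS6_32.BD.Fin

/-! Invariant sets are far from morphic sequences. -/

set_option autoImplicit false

namespace Pool.Agent.KS6_32.MO

open Finset Filter Topology
open Pool.Agent.H499R2.ND Pool.Agent.W41 Pool.Agent.Y965.SI Pool.Agent.KS6_32.BD

theorem log_top : Tendsto (fun X : ℕ => Real.log X) atTop atTop :=
  Real.tendsto_log_atTop.comp tendsto_natCast_atTop_atTop

theorem loglog_top : Tendsto (fun X : ℕ => Real.log (Real.log X)) atTop atTop :=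
  Real.tendsto_log_atTop.comp log_top

theorem ratio_log (a : ℝ) : Tendsto (fun X : ℕ => Real.log (Real.log X) ^ a / √ (Real.log X)) atTop (𝓝 0) := by
  have h := (isLittleO_log_rpow_rpow_atTop a (show (0 : ℝ) < 1 / 2 by norm_num)).tendsto_div_nhds_zero
  refine (h.comp log_top).congr fun X => ?_
  simp only [Function.comp]
  rw [Real.sqrt_eq_rpow]

theorem log_div_self : Tendsto (fun X : ℕ => Real.log X / X) atTop (𝓝 0) := by
  have h := Real.isLittleO_log_id_atTop.tendsto_div_nhds_zero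
  exact h.comp tendsto_natCast_atTop_atTop

open Classical in
theorem far {s : ℤ} (hs : s = 1 ∨ s = -1) {S : Set ℤ} (hS : Inv 1 S) (h1 : ∃ x ∈ S, 0 < s * x)
    (h2 : ∃ x ∉ S, 0 < s * x) {v : ℕ → Bool}
    (hv : Tendsto (fun X : ℕ => (#{i ∈ range X | v i ≠ v (i + 1)} : ℝ) / X) atTop (𝓝 0) →
      ∃ C : ℝ, 0 < C ∧ ∀ᶠ X : ℕ in atTop, (#{i ∈ range X | v i ≠ v (i + 1)} : ℝ) * Real.log X ≤ C * X)
    {ε : ℝ} (hε : 0 < ε) : ∃ᶠ X : ℕ in atTop,
      X / (√ (Real.log X) * Real.log (Real.log X) ^ (1 + ε)) < (#{n ∈ Icc 1 X | ¬ (v n = true ↔ s * (n : ℤ) ∈ S)} : ℝ) := by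
  by_contra hcon
  rw [not_frequently] at hcon
  set Bv : ℕ → ℕ := fun X => #{i ∈ range X | v i ≠ v (i + 1)} with hBv
  set E : ℕ → ℕ := fun X => #{n ∈ Icc 1 X | ¬ (v n = true ↔ s * (n : ℤ) ∈ S)} with hE
  set D : ℕ → ℕ := fun X => #{n ∈ Icc 1 X | n ∈ Bd s S} with hD
  have hEb : ∀ᶠ X : ℕ in atTop, (E X : ℝ) ≤ X / (√ (Real.log X) * Real.log (Real.log X) ^ (1 + ε)) := by
    filter_upwards [hcon] with X hX
    exact not_lt.1 hX
  -- comparison of borders
  have hc1 : ∀ X, Bv X ≤ 1 + D X + 2 * E X := by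
    intro X
    have hsub : (range X).filter (fun i => v i ≠ v (i + 1)) ⊆ {0} ∪ ((Icc 1 X).filter fun n => n ∈ Bd s S) ∪
        (((Icc 1 X).filter fun n => ¬ (v n = true ↔ s * (n : ℤ) ∈ S)) ∪
        (((Icc 1 X).filter fun n => ¬ (v n = true ↔ s * (n : ℤ) ∈ S)).image fun n => n - 1)) := by
      intro i hi
      rw [mem_filter, mem_range] at hi
      rcases Nat.eq_zero_or_pos i with h0 | h0
      · simp [h0]
      by_cases hi1 : (v i = true ↔ s * (i : ℤ) ∈ S)
      · by_cases hi2 : (v (i + 1) = true ↔ s * ((i + 1 : ℕ) : ℤ) ∈ S)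
        · apply mem_union_left
          apply mem_union_right
          rw [mem_filter, mem_Icc]
          refine ⟨⟨h0, hi.1.le⟩, h0, fun h3 => hi.2 ?_⟩
          push_cast at hi2
          rw [Bool.eq_iff_iff]
          exact hi1.trans (h3.trans hi2.symm)
        · apply mem_union_right
          apply mem_union_right
          rw [mem_image]
          exact ⟨i + 1, mem_filter.2 ⟨mem_Icc.2 ⟨by omega, by omega⟩, hi2⟩, by omega⟩
      · apply mem_union_right
        apply mem_union_left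
        exact mem_filter.2 ⟨mem_Icc.2 ⟨h0, hi.1.le⟩, hi1⟩
    refine (card_le_card hsub).trans ((card_union_le _ _).trans ?_)
    have h3 := card_union_le {0} ((Icc 1 X).filter fun n => n ∈ Bd s S)
    rw [card_singleton] at h3
    have h4 := card_union_le ((Icc 1 X).filter fun n => ¬ (v n = true ↔ s * (n : ℤ) ∈ S))
      (((Icc 1 X).filter fun n => ¬ (v n = true ↔ s * (n : ℤ) ∈ S)).image fun n => n - 1)
    have h5 := card_image_le (s := (Icc 1 X).filter fun n => ¬ (v n = true ↔ s * (n : ℤ) ∈ S)) (f := fun n => n - 1)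
    show _ ≤ 1 + D X + 2 * E X
    have e1 : D X = #((Icc 1 X).filter fun n => n ∈ Bd s S) := rfl
    have e2 : E X = #((Icc 1 X).filter fun n => ¬ (v n = true ↔ s * (n : ℤ) ∈ S)) := rfl
    rw [← e1] at h3
    rw [← e2] at h4 h5
    omega
  have hc2 : ∀ X, D X ≤ Bv X + 2 * E X + 2 := by
    intro X
    have hsub : ((Icc 1 X).filter fun n => n ∈ Bd s S) ⊆ ((range X).filter (fun i => v i ≠ v (i + 1)) ∪ {X}) ∪
        (((Icc 1 X).filter fun n => ¬ (v n = true ↔ s * (n : ℤ) ∈ S)) ∪
        (((Icc 1 X).filter fun n => ¬ (v n = true ↔ s * (n : ℤ) ∈ S)).image fun n => n - 1)) := by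
      intro i hi
      rw [mem_filter, mem_Icc] at hi
      obtain ⟨⟨h0, hiX⟩, -, hb⟩ := hi
      by_cases hX : i = X
      · apply mem_union_left
        apply mem_union_right
        simp [hX]
      have hlt : i < X := lt_of_le_of_ne hiX hX
      by_cases hi1 : (v i = true ↔ s * (i : ℤ) ∈ S)
      · by_cases hi2 : (v (i + 1) = true ↔ s * ((i + 1 : ℕ) : ℤ) ∈ S)
        · apply mem_union_left
          apply mem_union_left
          rw [mem_filter, mem_range]
          refine ⟨hlt, fun h3 => hb ?_⟩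
          push_cast at hi2
          rw [Bool.eq_iff_iff] at h3
          exact hi1.symm.trans (h3.trans hi2)
        · apply mem_union_right
          apply mem_union_right
          rw [mem_image]
          exact ⟨i + 1, mem_filter.2 ⟨mem_Icc.2 ⟨by omega, by omega⟩, hi2⟩, by omega⟩
      · apply mem_union_right
        apply mem_union_left
        exact mem_filter.2 ⟨mem_Icc.2 ⟨h0, hiX⟩, hi1⟩
    refine (card_le_card hsub).trans ((card_union_le _ _).trans ?_)
    have h3 := card_union_le ((range X).filter (fun i => v i ≠ v (i + 1))) {X}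
    rw [card_singleton] at h3
    have h4 := card_union_le ((Icc 1 X).filter fun n => ¬ (v n = true ↔ s * (n : ℤ) ∈ S))
      (((Icc 1 X).filter fun n => ¬ (v n = true ↔ s * (n : ℤ) ∈ S)).image fun n => n - 1)
    have h5 := card_image_le (s := (Icc 1 X).filter fun n => ¬ (v n = true ↔ s * (n : ℤ) ∈ S)) (f := fun n => n - 1)
    show _ ≤ Bv X + 2 * E X + 2
    have e1 : Bv X = #((range X).filter (fun i => v i ≠ v (i + 1))) := rfl
    have e2 : E X = #((Icc 1 X).filter fun n => ¬ (v n = true ↔ s * (n : ℤ) ∈ S)) := rfl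
    rw [← e1] at h3
    rw [← e2] at h4 h5
    omega
  -- the density of the borders is zero
  have hDlim : Tendsto (fun X : ℕ => (D X : ℝ) / X) atTop (𝓝 0) := by
    obtain ⟨K, hK, hA⟩ := Ap_count
    have h3 : Tendsto (fun X : ℕ => K * √ (Real.log (Real.log X) / Real.log X)) atTop (𝓝 0) := by
      have h4 : Tendsto (fun X : ℕ => Real.log (Real.log X) / Real.log X) atTop (𝓝 0) :=
        (Real.isLittleO_log_id_atTop.tendsto_div_nhds_zero).comp log_top
      have h5 := (Real.continuous_sqrt.tendsto 0).comp h4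
      rw [Real.sqrt_zero] at h5
      have h6 := h5.const_mul K
      rw [mul_zero] at h6
      exact h6
    refine squeeze_zero' (Eventually.of_forall fun X => by positivity) ?_ h3
    filter_upwards [eventually_ge_atTop 16] with X hX
    have hX0 : (0 : ℝ) < X := by
      have : 0 < X := by omega
      exact_mod_cast this
    rw [div_le_iff₀ hX0]
    refine le_trans ?_ (hA s hs X hX)
    have : D X ≤ #{n ∈ Icc 1 X | n ∈ Ap s} := by
      apply card_le_card
      intro n hn
      rw [mem_filter] at hn ⊢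
      exact ⟨hn.1, Bd_sub_Ap hS hn.2⟩
    exact_mod_cast this
  have hElim : Tendsto (fun X : ℕ => (E X : ℝ) / X) atTop (𝓝 0) := by
    have h3 : Tendsto (fun X : ℕ => (√ (Real.log X) * Real.log (Real.log X) ^ (1 + ε))⁻¹) atTop (𝓝 0) := by
      apply tendsto_inv_atTop_zero.comp
      apply Tendsto.atTop_mul_atTop₀
      · exact Real.tendsto_sqrt_atTop.comp log_top
      · exact (tendsto_rpow_atTop (by linarith)).comp loglog_top
    refine squeeze_zero' (Eventually.of_forall fun X => by positivity) ?_ h3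
    filter_upwards [hEb, eventually_ge_atTop 1] with X hX hX1
    have hX0 : (0 : ℝ) < X := by exact_mod_cast hX1
    rw [div_le_iff₀ hX0]
    refine hX.trans (le_of_eq ?_)
    rw [div_eq_inv_mul]
  have hBlim : Tendsto (fun X : ℕ => (Bv X : ℝ) / X) atTop (𝓝 0) := by
    have h3 : Tendsto (fun X : ℕ => 1 / (X : ℝ) + (D X : ℝ) / X + 2 * ((E X : ℝ) / X)) atTop (𝓝 (0 + 0 + 2 * 0)) :=
      (tendsto_one_div_atTop_nhds_zero_nat.add hDlim).add (hElim.const_mul 2)
    rw [mul_zero, add_zero, add_zero] at h3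
    refine squeeze_zero' (Eventually.of_forall fun X => by positivity) ?_ h3
    filter_upwards [eventually_ge_atTop 1] with X hX1
    have hX0 : (0 : ℝ) < X := by exact_mod_cast hX1
    have h4 : (Bv X : ℝ) ≤ 1 + D X + 2 * E X := by exact_mod_cast hc1 X
    calc (Bv X : ℝ) / X ≤ (1 + D X + 2 * E X) / X := div_le_div_of_nonneg_right h4 hX0.le
      _ = 1 / (X : ℝ) + (D X : ℝ) / X + 2 * ((E X : ℝ) / X) := by ring
  obtain ⟨C, hC, hBC⟩ := hv hBlim
  -- contradiction with the lower bound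
  have hε2 : 0 < ε / 2 := by positivity
  have hmany := Bd_many hs hS h1 h2 hε2
  have hT : Tendsto (fun X : ℕ => C * (Real.log (Real.log X) ^ (1 + ε / 2) / √ (Real.log X)) +
      2 * Real.log (Real.log X) ^ (-(ε / 2)) +
      2 * ((Real.log (Real.log X) ^ (1 + ε / 2) / √ (Real.log X)) * (Real.log X / X))) atTop
      (𝓝 (C * 0 + 2 * 0 + 2 * (0 * 0))) :=
    (((ratio_log _).const_mul C).add (((tendsto_rpow_neg_atTop hε2).comp loglog_top).const_mul 2)).add
      (((ratio_log _).mul log_div_self).const_mul 2)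
  have hT' := hT.eventually (eventually_le_nhds (show C * 0 + 2 * 0 + 2 * (0 * 0) < (1 : ℝ) by norm_num))
  have hll := loglog_top.eventually (eventually_gt_atTop 0)
  have hl := log_top.eventually (eventually_gt_atTop 0)
  obtain ⟨X, hX1, hX2, hX3, hX4, hX5, hX6, hX7⟩ :=
    (hmany.and_eventually (hT'.and (hEb.and (hBC.and (hll.and (hl.and (eventually_ge_atTop 1))))))).exists
  set y : ℝ := Real.log X with hy
  set w : ℝ := Real.log y with hw
  have hX0 : (0 : ℝ) < X := by exact_mod_cast hX7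
  have hsy : 0 < √ y := Real.sqrt_pos.2 hX6
  have hsy2 : √ y * √ y = y := Real.mul_self_sqrt hX6.le
  have hwp : 0 < w ^ (1 + ε / 2) := Real.rpow_pos_of_pos hX5 _
  have hwm : 0 < w ^ (-(ε / 2)) := Real.rpow_pos_of_pos hX5 _
  have hwe : w ^ (1 + ε / 2) = w ^ (1 + ε) * w ^ (-(ε / 2)) := by
    rw [← Real.rpow_add hX5]
    congr 1
    ring
  set h : ℝ := X / (√ y * w ^ (1 + ε / 2)) with hh
  have hh0 : 0 < h := by positivity
  have hD1 : (D X : ℝ) ≤ Bv X + 2 * E X + 2 := by exact_mod_cast hc2 X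
  have hB1 : (Bv X : ℝ) ≤ h * (C * (w ^ (1 + ε / 2) / √ y)) := by
    have : (Bv X : ℝ) ≤ C * X / y := by rwa [le_div_iff₀ hX6]
    refine this.trans (le_of_eq ?_)
    have e3 : h * (C * (w ^ (1 + ε / 2) / √ y)) = C * X / (√ y * √ y) := by
      rw [hh]
      field_simp
    rw [e3, hsy2]
  have hE1 : (E X : ℝ) ≤ h * w ^ (-(ε / 2)) := by
    refine hX3.trans (le_of_eq ?_)
    have h6 : 0 < w ^ (1 + ε) := Real.rpow_pos_of_pos hX5 _
    rw [hh, hwe]
    field_simp
  have h21 : (2 : ℝ) = h * (2 * ((w ^ (1 + ε / 2) / √ y) * (y / X))) := by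
    rw [hh]
    field_simp
    rw [sq, hsy2]
  have hfin : (D X : ℝ) ≤ h := by
    calc (D X : ℝ) ≤ Bv X + 2 * E X + 2 := hD1
      _ ≤ h * (C * (w ^ (1 + ε / 2) / √ y)) + 2 * (h * w ^ (-(ε / 2))) + h * (2 * ((w ^ (1 + ε / 2) / √ y) * (y / X))) := by
          rw [← h21]
          linarith
      _ = h * (C * (w ^ (1 + ε / 2) / √ y) + 2 * w ^ (-(ε / 2)) + 2 * ((w ^ (1 + ε / 2) / √ y) * (y / X))) := by ring
      _ ≤ h * 1 := mul_le_mul_of_nonneg_left hX2 hh0.le
      _ = h := mul_one h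
  exact absurd hX1 (not_lt.2 hfin)

end Pool.Agent.KS6_32.MO
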