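import Pool.Agent.KS6_32.MO.Exp

/-! The order of growth of an exponential polynomial, and the comparison of two of them. -/

set_option autoImplicit false

namespace Pool.Agent.KS6_32.MO

open Finset Filter Topology Polynomial

/-- The order of growth of an exponential polynomial. -/
theorem EP.top {s : ℕ → ℂ} (hs : EP s) : (∀ᶠ n in atTop, s n = 0) ∨
    ∃ ρ : ℝ, 0 < ρ ∧ ∃ e : ℕ, ∃ C : ℝ, 0 < C ∧ ∃ c : ℝ, 0 < c ∧ ∃ r : ℕ, ∀ᶠ n : ℕ in atTop,
      ‖s n‖ ≤ C * ((n : ℝ) ^ e * ρ ^ n) ∧ ∃ m ≤ r, c * ((n : ℝ) ^ e * ρ ^ n) ≤ ‖s (n + m)‖ := by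
  classical
  obtain ⟨P, hP0, hP⟩ := hs
  by_cases hP1 : P = 0
  · left
    filter_upwards [hP] with n hn
    rw [hn, hP1]
    simp
  right
  have hF : P.support.Nonempty := Finsupp.support_nonempty_iff.2 hP1
  obtain ⟨μ₁, hμ₁, hmax⟩ := P.support.exists_max_image (fun μ => ‖μ‖) hF
  set ρ : ℝ := ‖μ₁‖ with hρ
  have hne : ∀ μ ∈ P.support, μ ≠ 0 := by
    rintro μ hμ rfl
    rw [Finsupp.mem_support_iff] at hμ
    exact hμ hP0
  have hρ0 : 0 < ρ := norm_pos_iff.2 (hne μ₁ hμ₁)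
  have hρc : (ρ : ℂ) ≠ 0 := by exact_mod_cast hρ0.ne'
  set G := P.support.filter (fun μ => ‖μ‖ = ρ) with hG
  have hGne : G.Nonempty := ⟨μ₁, mem_filter.2 ⟨hμ₁, rfl⟩⟩
  obtain ⟨μ₀, hμ₀, hmax'⟩ := G.exists_max_image (fun μ => (P μ).natDegree) hGne
  set e : ℕ := (P μ₀).natDegree with he
  have hGF : ∀ μ ∈ G, μ ∈ P.support ∧ ‖μ‖ = ρ := fun μ hμ => mem_filter.1 hμ
  have hlead : (P μ₀).coeff e ≠ 0 := by
    rw [he, coeff_natDegree]
    apply leadingCoeff_ne_zero.2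
    have := (hGF μ₀ hμ₀).1
    rwa [Finsupp.mem_support_iff] at this
  set Z : ℕ → ℂ := fun n => ∑ μ ∈ G, (P μ).coeff e * (μ / ρ) ^ n with hZ
  set t : ℕ → ℂ := fun n => s n / ((n : ℂ) ^ e * (ρ : ℂ) ^ n) with ht
  -- the normalised sequence
  have hlim : Tendsto (fun n => t n - Z n) atTop (𝓝 0) := by
    have h1 : Tendsto (fun n : ℕ => ∑ μ ∈ P.support, (if μ ∈ G then
        ((P μ).eval (n : ℂ) / (n : ℂ) ^ e - (P μ).coeff e) * (μ / ρ) ^ n
        else ((P μ).eval (n : ℂ) * (μ / ρ) ^ n) * ((n : ℂ) ^ e)⁻¹)) atTop (𝓝 (∑ μ ∈ P.support, 0)) := by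
      apply tendsto_finsetSum
      intro μ hμ
      by_cases hμG : μ ∈ G
      · simp only [if_pos hμG]
        have h2 := (poly_lead (hmax' μ hμG)).sub_const ((P μ).coeff e)
        rw [sub_self] at h2
        rw [tendsto_zero_iff_norm_tendsto_zero] at h2 ⊢
        refine h2.congr fun n => ?_
        rw [norm_mul, norm_pow, norm_div, (hGF μ hμG).2, Complex.norm_real, Real.norm_of_nonneg hρ0.le,
          div_self hρ0.ne', one_pow, mul_one]
      · simp only [if_neg hμG]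
        have hlt : ‖μ‖ < ρ := lt_of_le_of_ne (hmax μ hμ) fun h => hμG (mem_filter.2 ⟨hμ, h⟩)
        have h2 : ‖μ / (ρ : ℂ)‖ < 1 := by
          rw [norm_div, Complex.norm_real, Real.norm_of_nonneg hρ0.le, div_lt_one hρ0]
          exact hlt
        have h3 := poly_exp (P μ) h2
        rw [tendsto_zero_iff_norm_tendsto_zero] at h3 ⊢
        refine squeeze_zero' (Eventually.of_forall fun n => norm_nonneg _) ?_ h3
        filter_upwards [eventually_ge_atTop 1] with n hn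
        rw [norm_mul]
        have h4 : ‖((n : ℂ) ^ e)⁻¹‖ ≤ 1 := by
          rw [norm_inv, norm_pow, Complex.norm_natCast]
          apply inv_le_one_of_one_le₀
          apply one_le_pow₀
          exact_mod_cast hn
        nlinarith [norm_nonneg ((P μ).eval (n : ℂ) * (μ / ρ) ^ n)]
    rw [sum_const_zero] at h1
    refine h1.congr' ?_
    filter_upwards [hP, eventually_gt_atTop 0] with n hn hn0
    have hnc : (n : ℂ) ≠ 0 := by exact_mod_cast hn0.ne'
    have e1 : Z n = ∑ μ ∈ P.support, if μ ∈ G then (P μ).coeff e * (μ / ρ) ^ n else 0 := by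
      rw [hZ, ← sum_filter]
      apply sum_congr _ fun _ _ => rfl
      ext μ
      simp only [mem_filter, hG]
      tauto
    have e2 : t n = ∑ μ ∈ P.support, (P μ).eval (n : ℂ) * μ ^ n / ((n : ℂ) ^ e * (ρ : ℂ) ^ n) := by
      rw [ht]
      show s n / _ = _
      rw [hn, Finsupp.sum, sum_div]
    rw [e1, e2, ← sum_sub_distrib]
    apply sum_congr rfl
    intro μ _
    split_ifs with h
    · rw [div_pow]; field_simp
    · rw [div_pow]; field_simp; ring
  -- the upper bound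
  set A : ℝ := ∑ μ ∈ G, ‖(P μ).coeff e‖ with hA
  have hω : ∀ μ ∈ G, ‖μ / (ρ : ℂ)‖ = 1 := by
    intro μ hμ
    rw [norm_div, Complex.norm_real, Real.norm_of_nonneg hρ0.le, (hGF μ hμ).2, div_self hρ0.ne']
  have hZb : ∀ n, ‖Z n‖ ≤ A := by
    intro n
    refine (norm_sum_le _ _).trans (sum_le_sum fun μ hμ => ?_)
    rw [norm_mul, norm_pow, hω μ hμ, one_pow, mul_one]
  have hA0 : 0 ≤ A := sum_nonneg fun _ _ => norm_nonneg _
  -- a polynomial which isolates `μ₀`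
  set Q : ℂ[X] := ∏ μ ∈ G.erase μ₀, (X - C (μ / (ρ : ℂ))) with hQ
  have hQ1 : ∀ μ ∈ G, μ ≠ μ₀ → Q.eval (μ / (ρ : ℂ)) = 0 := by
    intro μ hμ hne'
    rw [hQ, eval_prod]
    apply prod_eq_zero (mem_erase.2 ⟨hne', hμ⟩)
    simp
  have hQ0 : Q.eval (μ₀ / (ρ : ℂ)) ≠ 0 := by
    rw [hQ, eval_prod, prod_ne_zero_iff]
    intro μ hμ
    rw [mem_erase] at hμ
    rw [eval_sub, eval_X, eval_C, sub_ne_zero]
    intro h
    apply hμ.1
    have := (div_left_inj' hρc).1 h
    exact this.symm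
  set r := Q.natDegree with hr
  have hQZ : ∀ n, ∑ m ∈ range (r + 1), Q.coeff m * Z (n + m) = (P μ₀).coeff e * (μ₀ / ρ) ^ n * Q.eval (μ₀ / (ρ : ℂ)) := by
    intro n
    have h1 : ∀ m ∈ range (r + 1), Q.coeff m * Z (n + m) = ∑ μ ∈ G, (P μ).coeff e * (μ / ρ) ^ n * (Q.coeff m * (μ / ρ) ^ m) := by
      intro m _
      rw [hZ]
      simp only
      rw [mul_sum]
      apply sum_congr rfl
      intro μ _
      rw [pow_add]; ring
    rw [sum_congr rfl h1, sum_comm]
    have h2 : ∀ μ ∈ G, ∑ m ∈ range (r + 1), (P μ).coeff e * (μ / ρ) ^ n * (Q.coeff m * (μ / ρ) ^ m)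
        = (P μ).coeff e * (μ / ρ) ^ n * Q.eval (μ / (ρ : ℂ)) := by
      intro μ _
      rw [← mul_sum, eval_eq_sum_range]
    rw [sum_congr rfl h2, sum_eq_single μ₀]
    · intro μ hμ hne'
      rw [hQ1 μ hμ hne', mul_zero]
    · intro h
      exact absurd hμ₀ h
  set κ : ℝ := ‖(P μ₀).coeff e‖ * ‖Q.eval (μ₀ / (ρ : ℂ))‖ with hκ
  have hκ0 : 0 < κ := mul_pos (norm_pos_iff.2 hlead) (norm_pos_iff.2 hQ0)
  set B : ℝ := 1 + ∑ m ∈ range (r + 1), ‖Q.coeff m‖ with hB
  have hB0 : 0 < B := by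
    have : 0 ≤ ∑ m ∈ range (r + 1), ‖Q.coeff m‖ := sum_nonneg fun _ _ => norm_nonneg _
    linarith
  have hδ : ∀ᶠ n in atTop, ∀ m ∈ range (r + 1), ‖t (n + m) - Z (n + m)‖ ≤ κ / (2 * B) := by
    rw [eventually_all_finset]
    intro m _
    have h1 := (tendsto_zero_iff_norm_tendsto_zero.1 hlim).comp (tendsto_add_atTop_nat m)
    have h2 := h1.eventually (eventually_le_nhds (show (0 : ℝ) < κ / (2 * B) by positivity))
    filter_upwards [h2] with n hn
    exact hn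
  have hup := (tendsto_zero_iff_norm_tendsto_zero.1 hlim).eventually (eventually_le_nhds (zero_lt_one (α := ℝ)))
  refine ⟨ρ, hρ0, e, A + 1, by linarith, κ / (2 * B) * min 1 ρ ^ r, by
    have : 0 < min 1 ρ := lt_min one_pos hρ0
    positivity, r, ?_⟩
  have hst : ∀ n : ℕ, 1 ≤ n → ‖s n‖ = ‖t n‖ * ((n : ℝ) ^ e * ρ ^ n) := by
    intro n hn
    have hn0 : (0 : ℝ) < n := by exact_mod_cast hn
    rw [ht]
    simp only
    rw [norm_div, norm_mul, norm_pow, norm_pow, Complex.norm_natCast, Complex.norm_real,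
      Real.norm_of_nonneg hρ0.le, div_mul_cancel₀]
    positivity
  filter_upwards [hδ, hup, eventually_ge_atTop 1] with n hn1 hn2 hn3
  have hn0 : (0 : ℝ) < n := by exact_mod_cast hn3
  refine ⟨?_, ?_⟩
  · rw [hst n hn3]
    apply mul_le_mul_of_nonneg_right _ (by positivity)
    calc ‖t n‖ = ‖Z n + (t n - Z n)‖ := by congr 1; ring
      _ ≤ ‖Z n‖ + ‖t n - Z n‖ := norm_add_le _ _
      _ ≤ A + 1 := add_le_add (hZb n) hn2
  · have h1 : κ / 2 ≤ ∑ m ∈ range (r + 1), ‖Q.coeff m‖ * ‖t (n + m)‖ := by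
      have h2 : ‖∑ m ∈ range (r + 1), Q.coeff m * Z (n + m)‖ = κ := by
        rw [hQZ, norm_mul, norm_mul, norm_pow, hω μ₀ hμ₀, one_pow, mul_one]
      have h3 : ‖∑ m ∈ range (r + 1), Q.coeff m * Z (n + m)‖
          ≤ ∑ m ∈ range (r + 1), (‖Q.coeff m‖ * ‖t (n + m)‖ + ‖Q.coeff m‖ * (κ / (2 * B))) := by
        refine (norm_sum_le _ _).trans (sum_le_sum fun m hm => ?_)
        rw [norm_mul, ← mul_add]
        apply mul_le_mul_of_nonneg_left _ (norm_nonneg _)
        calc ‖Z (n + m)‖ = ‖t (n + m) - (t (n + m) - Z (n + m))‖ := by congr 1; ring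
          _ ≤ ‖t (n + m)‖ + ‖t (n + m) - Z (n + m)‖ := norm_sub_le _ _
          _ ≤ ‖t (n + m)‖ + κ / (2 * B) := by linarith [hn1 m hm]
      rw [h2, sum_add_distrib, ← sum_mul] at h3
      have h4 : (∑ m ∈ range (r + 1), ‖Q.coeff m‖) * (κ / (2 * B)) ≤ κ / 2 := by
        have : (∑ m ∈ range (r + 1), ‖Q.coeff m‖) ≤ B := by linarith
        calc _ ≤ B * (κ / (2 * B)) := mul_le_mul_of_nonneg_right this (by positivity)
          _ = κ / 2 := by field_simp
      linarith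
    by_contra hcon
    push Not at hcon
    have hsm : ∀ m ∈ range (r + 1), ‖t (n + m)‖ < κ / (2 * B) := by
      intro m hm
      rw [mem_range] at hm
      have h2 := hcon m (by omega)
      rw [hst (n + m) (by omega)] at h2
      have h3 : min 1 ρ ^ r * ((n : ℝ) ^ e * ρ ^ n) ≤ ((n + m : ℕ) : ℝ) ^ e * ρ ^ (n + m) := by
        have h4 : (n : ℝ) ^ e ≤ ((n + m : ℕ) : ℝ) ^ e := by
          apply pow_le_pow_left₀ hn0.le
          push_cast
          have := Nat.cast_nonneg (α := ℝ) m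
          linarith
        have h5 : min 1 ρ ^ r ≤ ρ ^ m := by
          have h6 : 0 ≤ min 1 ρ := le_min zero_le_one hρ0.le
          calc min 1 ρ ^ r ≤ min 1 ρ ^ m := pow_le_pow_of_le_one h6 (min_le_left _ _) (by omega)
            _ ≤ ρ ^ m := pow_le_pow_left₀ h6 (min_le_right _ _) m
        rw [pow_add]
        have h7 : 0 ≤ (n : ℝ) ^ e := by positivity
        have h8 : 0 ≤ ρ ^ n := by positivity
        have h9 : 0 ≤ min 1 ρ ^ r := pow_nonneg (le_min zero_le_one hρ0.le) _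
        calc min 1 ρ ^ r * ((n : ℝ) ^ e * ρ ^ n) = (min 1 ρ ^ r * (n : ℝ) ^ e) * ρ ^ n := by ring
          _ ≤ (ρ ^ m * ((n + m : ℕ) : ℝ) ^ e) * ρ ^ n := by
              apply mul_le_mul_of_nonneg_right _ h8
              exact mul_le_mul h5 h4 h7 (by positivity)
          _ = ((n + m : ℕ) : ℝ) ^ e * (ρ ^ n * ρ ^ m) := by ring
      have hpos : 0 < ((n + m : ℕ) : ℝ) ^ e * ρ ^ (n + m) := by
        have : (0 : ℝ) < ((n + m : ℕ) : ℝ) := by exact_mod_cast (show 0 < n + m by omega)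
        positivity
      by_contra h10
      push Not at h10
      have h11 : κ / (2 * B) * (min 1 ρ ^ r * ((n : ℝ) ^ e * ρ ^ n)) ≤ ‖t (n + m)‖ * (((n + m : ℕ) : ℝ) ^ e * ρ ^ (n + m)) := by
        have h12 : 0 ≤ min 1 ρ ^ r * ((n : ℝ) ^ e * ρ ^ n) := by
          have := pow_nonneg (le_min zero_le_one hρ0.le : (0:ℝ) ≤ min 1 ρ) r
          positivity
        exact mul_le_mul h10 h3 h12 (norm_nonneg _)
      linarith
    have h2 : ∑ m ∈ range (r + 1), ‖Q.coeff m‖ * ‖t (n + m)‖ ≤ (B - 1) * (κ / (2 * B)) := by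
      have : (B - 1) = ∑ m ∈ range (r + 1), ‖Q.coeff m‖ := by rw [hB]; ring
      rw [this, sum_mul]
      exact sum_le_sum fun m hm => mul_le_mul_of_nonneg_left (hsm m hm).le (norm_nonneg _)
    have h3 : (B - 1) * (κ / (2 * B)) < κ / 2 := by
      have : B * (κ / (2 * B)) = κ / 2 := by field_simp
      have h4 : 0 < κ / (2 * B) := by positivity
      nlinarith
    linarith

end Pool.Agent.KS6_32.MO
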