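import Pool.Agent.KS6_32.MO.Comp

/-! Borders in the fixed points of substitutions. -/

set_option autoImplicit false

namespace Pool.Agent.KS6_32.MO

open Finset Filter Topology

variable {A : Type}

/-- the pairs of adjacent letters of the word `w c` -/
def adj : List A → A → List (A × A)
  | [], _ => []
  | a :: w, c => (a, w.headD c) :: adj w c

/-- the sum of `x` over the pairs of adjacent letters of `w c` -/
def F {R : Type*} [AddCommMonoid R] (x : A × A → R) (w : List A) (c : A) : R := ((adj w c).map x).sum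

theorem F_nil {R : Type*} [AddCommMonoid R] (x : A × A → R) (c : A) : F x [] c = 0 := rfl

theorem F_cons {R : Type*} [AddCommMonoid R] (x : A × A → R) (a : A) (w : List A) (c : A) :
    F x (a :: w) c = x (a, w.headD c) + F x w c := by
  unfold F
  rw [adj, List.map_cons, List.sum_cons]

theorem headD_append (w w' : List A) (c : A) : (w ++ w').headD c = w.headD (w'.headD c) := by
  cases w <;> rfl

theorem F_append {R : Type*} [AddCommMonoid R] (x : A × A → R) (w w' : List A) (c : A) :
    F x (w ++ w') c = F x w (w'.headD c) + F x w' c := by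
  induction w with
  | nil => rw [List.nil_append, F_nil, zero_add]
  | cons a w ih => rw [List.cons_append, F_cons, F_cons, ih, headD_append, add_assoc]

/-- the substitution acting on functions of pairs -/
def M (σ : A → List A) : (A × A → ℂ) →ₗ[ℂ] (A × A → ℂ) where
  toFun x := fun p => F x (σ p.1) ((σ p.2).headD p.2)
  map_add' x y := by
    funext p
    simp only [F, Pi.add_apply]
    induction adj (σ p.1) ((σ p.2).headD p.2) with
    | nil => simp
    | cons q l ih =>
      simp only [List.map_cons, List.sum_cons, ih, Pi.add_apply]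
      ring
  map_smul' a x := by
    funext p
    simp only [F, Pi.smul_apply, RingHom.id_apply, smul_eq_mul]
    induction adj (σ p.1) ((σ p.2).headD p.2) with
    | nil => simp
    | cons q l ih =>
      simp only [List.map_cons, List.sum_cons, ih, Pi.smul_apply, smul_eq_mul]
      ring

theorem F_M {σ : A → List A} (hσ : ∀ b, σ b ≠ []) (x : A × A → ℂ) (w : List A) (c : A) :
    F (M σ x) w c = F x (w.flatMap σ) ((σ c).headD c) := by
  induction w with
  | nil => rfl
  | cons a w ih =>
    rw [F_cons, ih, List.flatMap_cons, F_append]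
    congr 1
    show F x (σ a) ((σ (w.headD c)).headD (w.headD c)) = _
    congr 1
    cases w with
    | nil => rfl
    | cons b w' =>
      rw [List.flatMap_cons, headD_append]
      show (σ b).headD b = _
      cases h : σ b with
      | nil => exact absurd h (hσ b)
      | cons d l => rfl

/-- the prefix of length `m` -/
def pre (u : ℕ → A) (m : ℕ) : List A := (List.range m).map u

theorem pre_succ (u : ℕ → A) (m : ℕ) : pre u (m + 1) = pre u m ++ [u m] := by
  unfold pre
  rw [List.range_succ, List.map_append, List.map_singleton]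

theorem pre_length (u : ℕ → A) (m : ℕ) : (pre u m).length = m := by
  unfold pre
  rw [List.length_map, List.length_range]

theorem F_pre {R : Type*} [AddCommMonoid R] (x : A × A → R) (u : ℕ → A) (m : ℕ) :
    F x (pre u m) (u m) = ∑ i ∈ range m, x (u i, u (i + 1)) := by
  induction m with
  | zero => rfl
  | succ m ih =>
    rw [pre_succ, F_append, sum_range_succ, ← ih]
    congr 1
    rw [F_cons, F_nil, add_zero]
    rfl

/-- the length of the image of the prefix of length `m` -/
def ell (σ : A → List A) (u : ℕ → A) (m : ℕ) : ℕ := ((pre u m).flatMap σ).length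

theorem ell_succ (σ : A → List A) (u : ℕ → A) (m : ℕ) : ell σ u (m + 1) = ell σ u m + (σ (u m)).length := by
  unfold ell
  rw [pre_succ, List.flatMap_append, List.length_append]
  simp

variable {σ : A → List A} {u : ℕ → A}

theorem hu_ell (hu : ∀ m, ∃ k, (pre u m).flatMap σ = pre u k) (m : ℕ) :
    (pre u m).flatMap σ = pre u (ell σ u m) := by
  obtain ⟨k, hk⟩ := hu m
  have : ell σ u m = k := by
    unfold ell
    rw [hk, pre_length]
  rw [this, hk]

theorem head_ell (hσ : ∀ b, σ b ≠ []) (hu : ∀ m, ∃ k, (pre u m).flatMap σ = pre u k) (m : ℕ) :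
    (σ (u m)).headD (u m) = u (ell σ u m) := by
  have h1 := hu_ell hu (m + 1)
  rw [pre_succ, List.flatMap_append, hu_ell hu m, ell_succ] at h1
  have h2 : 0 < (σ (u m)).length := List.length_pos_iff.2 (hσ _)
  obtain ⟨l, hl⟩ : ∃ l, (σ (u m)).length = l + 1 := ⟨(σ (u m)).length - 1, by omega⟩
  have h3 : (pre u (ell σ u m) ++ List.flatMap σ [u m])[ell σ u m]? = (pre u (ell σ u m + (σ (u m)).length))[ell σ u m]? := by
    rw [h1]
  rw [List.getElem?_append_right (by rw [pre_length]), pre_length, Nat.sub_self] at h3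
  have h4 : (pre u (ell σ u m + (σ (u m)).length))[ell σ u m]? = some (u (ell σ u m)) := by
    unfold pre
    rw [List.getElem?_map, List.getElem?_range (by omega)]
    rfl
  rw [h4] at h3
  cases h : σ (u m) with
  | nil => exact absurd h (hσ _)
  | cons d l =>
    rw [List.flatMap_cons, List.flatMap_nil, h] at h3
    simpa using h3

theorem F_step (hσ : ∀ b, σ b ≠ []) (hu : ∀ m, ∃ k, (pre u m).flatMap σ = pre u k) (x : A × A → ℂ) (n m : ℕ) :
    F ((M σ ^ n) x) (pre u m) (u m) = F x (pre u ((ell σ u)^[n] m)) (u ((ell σ u)^[n] m)) := by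
  induction n generalizing m with
  | zero => rfl
  | succ n ih =>
    rw [pow_succ', Module.End.mul_apply, F_M hσ, hu_ell hu, head_ell hσ hu, ih, Function.iterate_succ_apply]

theorem main_sum (hσ : ∀ b, σ b ≠ []) (hu : ∀ m, ∃ k, (pre u m).flatMap σ = pre u k) (x : A × A → ℂ) (n : ℕ) :
    ((M σ ^ n) x) (u 0, u 1) = ∑ i ∈ range ((ell σ u)^[n] 1), x (u i, u (i + 1)) := by
  rw [← F_pre, ← F_step hσ hu, F_pre, sum_range_one]

open Classical in
/-- If the borders of a morphic sequence have density zero, there are `O (X / log X)` of them. -/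
theorem border_small [Finite A] (τ : A → Bool) (hσ : ∀ b, σ b ≠ []) (h0 : 2 ≤ (σ (u 0)).length)
    (hu : ∀ m, ∃ k, (pre u m).flatMap σ = pre u k)
    (hlim : Tendsto (fun X : ℕ => (#{i ∈ range X | τ (u i) ≠ τ (u (i + 1))} : ℝ) / X) atTop (𝓝 0)) :
    ∃ C : ℝ, 0 < C ∧ ∀ᶠ X : ℕ in atTop, (#{i ∈ range X | τ (u i) ≠ τ (u (i + 1))} : ℝ) * Real.log X ≤ C * X := by
  obtain ⟨K, hK⟩ : ∃ K : ℕ, ∀ b, (σ b).length ≤ K := by
    obtain ⟨K, hK⟩ := (Set.finite_range fun b => (σ b).length).bddAbove
    exact ⟨K, fun b => hK ⟨b, rfl⟩⟩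
  have hK2 : 2 ≤ K := h0.trans (hK _)
  have hK0 : (2 : ℝ) ≤ K := by exact_mod_cast hK2
  have hell : ∀ m, ell σ u m ≤ K * m := by
    intro m
    induction m with
    | zero => simp [ell, pre]
    | succ m ih =>
      rw [ell_succ, mul_add, mul_one]
      exact add_le_add ih (hK _)
  have hell' : ∀ m, m + 2 ≤ ell σ u (m + 1) := by
    intro m
    induction m with
    | zero =>
      rw [ell_succ]
      simpa using h0.trans (Nat.le_add_left _ _)
    | succ m ih =>
      rw [ell_succ]
      have : 0 < (σ (u (m + 1))).length := List.length_pos_iff.2 (hσ _)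
      omega
  set L : ℕ → ℕ := fun n => (ell σ u)^[n] 1 with hL
  have hL0 : L 0 = 1 := rfl
  have hLs : ∀ n, L (n + 1) = ell σ u (L n) := fun n => Function.iterate_succ_apply' _ _ _
  have hL1 : ∀ n, 1 ≤ L n := by
    intro n
    induction n with
    | zero => exact le_rfl
    | succ n ih =>
      rw [hLs]
      obtain ⟨l, hl⟩ : ∃ l, L n = l + 1 := ⟨L n - 1, by omega⟩
      rw [hl]
      have := hell' l
      omega
  have hLlt : ∀ n, L n < L (n + 1) := by
    intro n
    rw [hLs]
    obtain ⟨l, hl⟩ : ∃ l, L n = l + 1 := ⟨L n - 1, by have := hL1 n; omega⟩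
    rw [hl]
    have := hell' l
    omega
  have hLmono : StrictMono L := strictMono_nat_of_lt_succ hLlt
  have hLK : ∀ n, L (n + 1) ≤ K * L n := fun n => by
    rw [hLs]
    exact hell _
  have hLpow : ∀ n, L n ≤ K ^ n := by
    intro n
    induction n with
    | zero => simp [hL0]
    | succ n ih =>
      rw [pow_succ']
      exact (hLK n).trans (Nat.mul_le_mul_left K ih)
  set Bo : ℕ → ℕ := fun X => #{i ∈ range X | τ (u i) ≠ τ (u (i + 1))} with hBo
  have hBomono : Monotone Bo := fun a b hab => card_le_card (filter_subset_filter _ (range_subset_range.2 hab))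
  have hfin : FiniteDimensional ℂ (A × A → ℂ) := by
    have := Fintype.ofFinite A
    infer_instance
  have hx : EP fun n => (((L n : ℕ) : ℝ) : ℂ) := by
    refine (EP.of_end (M σ) (LinearMap.proj (u 0, u 1)) (fun _ => 1)).of_eventually (Eventually.of_forall fun n => ?_)
    rw [LinearMap.proj_apply, main_sum hσ hu]
    simp [hL]
  have hy : EP fun n => (((Bo (L n) : ℕ) : ℝ) : ℂ) := by
    refine (EP.of_end (M σ) (LinearMap.proj (u 0, u 1)) (fun p => if τ p.1 ≠ τ p.2 then 1 else 0)).of_eventually
      (Eventually.of_forall fun n => ?_)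
    rw [LinearMap.proj_apply, main_sum hσ hu]
    show _ = ∑ i ∈ range (L n), if τ (u i) ≠ τ (u (i + 1)) then (1 : ℂ) else 0
    rw [← sum_filter, sum_const, nsmul_eq_mul, mul_one]
    norm_cast
  have hlim' : Tendsto (fun n => ((Bo (L n) : ℕ) : ℝ) / ((L n : ℕ) : ℝ)) atTop (𝓝 0) :=
    hlim.comp hLmono.tendsto_atTop
  obtain ⟨C, hC, hev⟩ := compare hx hy (K := K) (by linarith) (fun n => by exact_mod_cast hL1 n)
    (fun n => by exact_mod_cast hLK n) (fun n => Nat.cast_nonneg _) hlim'
  obtain ⟨N₀, hN₀⟩ := eventually_atTop.1 hev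
  refine ⟨C * K * Real.log K, by
    have : 0 < Real.log K := Real.log_pos (by linarith)
    positivity, ?_⟩
  filter_upwards [eventually_ge_atTop (L N₀)] with X hX
  have hex : ∃ k, X < L k := ⟨X + 1, (hLmono.id_le (X + 1)).trans_lt' (Nat.lt_succ_self X)⟩
  obtain ⟨n, hn⟩ : ∃ n, Nat.find hex = n + 1 := by
    refine ⟨Nat.find hex - 1, ?_⟩
    have : Nat.find hex ≠ 0 := by
      intro h
      have h1 := Nat.find_spec hex
      rw [h, hL0] at h1
      have := hL1 N₀
      omega
    omega
  have h1 : X < L (n + 1) := by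
    have := Nat.find_spec hex
    rwa [hn] at this
  have h2 : L n ≤ X := by
    have := Nat.find_min hex (m := n) (by omega)
    omega
  have h3 : N₀ ≤ n + 1 := by
    by_contra hcon
    push Not at hcon
    have := hLmono hcon
    omega
  have h4 := hN₀ (n + 1) h3
  have hX1 : 1 ≤ X := (hL1 N₀).trans hX
  have hXr : (1 : ℝ) ≤ X := by exact_mod_cast hX1
  have h5 : Real.log X ≤ ((n + 1 : ℕ) : ℝ) * Real.log K := by
    rw [← Real.log_pow]
    apply Real.log_le_log (by linarith)
    have : X ≤ K ^ (n + 1) := h1.le.trans (hLpow _)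
    exact_mod_cast this
  have h6 : ((Bo X : ℕ) : ℝ) ≤ ((Bo (L (n + 1)) : ℕ) : ℝ) := by exact_mod_cast hBomono h1.le
  have h7 : ((L (n + 1) : ℕ) : ℝ) ≤ K * X := by
    have : L (n + 1) ≤ K * X := (hLK n).trans (Nat.mul_le_mul_left K h2)
    exact_mod_cast this
  have hlK : 0 < Real.log K := Real.log_pos (by linarith)
  have hlX : 0 ≤ Real.log X := Real.log_nonneg hXr
  show ((Bo X : ℕ) : ℝ) * Real.log X ≤ _
  calc ((Bo X : ℕ) : ℝ) * Real.log X ≤ ((Bo (L (n + 1)) : ℕ) : ℝ) * (((n + 1 : ℕ) : ℝ) * Real.log K) :=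
        mul_le_mul h6 h5 hlX (Nat.cast_nonneg _)
    _ = ((Bo (L (n + 1)) : ℕ) : ℝ) * ((n + 1 : ℕ) : ℝ) * Real.log K := by ring
    _ ≤ C * (K * X) * Real.log K := by
        apply mul_le_mul_of_nonneg_right _ hlK.le
        exact h4.trans (mul_le_mul_of_nonneg_left h7 hC.le)
    _ = C * K * Real.log K * X := by ring

end Pool.Agent.KS6_32.MO
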